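import Pool.Agent.N371.CS.Main

/-! The maximum number of intersections of cross-Sperner families on an odd ground set. -/

set_option autoImplicit false

namespace Pool.Agent.Results.MP_841146_co.OddCrossSperner

/-- Two families of subsets of an `n`-element set are cross-Sperner if no member of one of them
contains, or is contained in, a member of the other. -/
def CrossSperner {n : ℕ} (A B : Finset (Finset (Fin n))) : Prop :=
  ∀ a ∈ A, ∀ b ∈ B, ¬ a ⊆ b ∧ ¬ b ⊆ a

/-- The family of all intersections `a ∩ b` with `a` in `A` and `b` in `B`. -/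
def inters {n : ℕ} (A B : Finset (Finset (Fin n))) : Finset (Finset (Fin n)) :=
  Finset.image₂ (fun a b => a ∩ b) A B

/-- For every odd `n = 2 * d + 1`, the maximum of `|I(A, B)|` over all cross-Sperner families
`A`, `B` of subsets of an `n`-element set is `2 ^ n - 2 ^ (d + 1) - 2 ^ d + 1`. -/
theorem result (d : ℕ) :
    IsGreatest {k : ℤ | ∃ A B : Finset (Finset (Fin (2 * d + 1))),
        CrossSperner A B ∧ k = ((inters A B).card : ℤ)}
      (2 ^ (2 * d + 1) - 2 ^ (d + 1) - 2 ^ d + 1) := by
  constructor
  · obtain ⟨A, B, h, hc⟩ := Pool.Agent.N371.CS.construction d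
    exact ⟨A, B, h, hc.symm⟩
  · rintro k ⟨A, B, h, rfl⟩
    exact Pool.Agent.N371.CS.upper d A B h

end Pool.Agent.Results.MP_841146_co.OddCrossSperner
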